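import Pool.Agent.H586.SLB.Stm
import Pool.Graph.R_pool_sql_team_seeded_63374d34.N990.OS.Eng

/-!
# Task CON: continuity of the covariance of the free field in the shift
-/

set_option autoImplicit false

open MeasureTheory Set Filter Topology
open scoped Classical InnerProductSpace ComplexConjugate

namespace Pool.Agent.H385.SLB

open Pool.Agent.N990 Pool.Agent.N990.C Pool.Agent.N990.OS
open Pool.Agent.N839.C (N2 PR)

noncomputable section

variable {D : ℕ}

theorem shc (i : Fin D) (t : ℝ) {g : Pt D → Fin D → ℝ} (hg : Continuous g)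
    (hs : HasCompactSupport g) :
    Continuous (fun p : Pt D => g (p.1 - Pi.single i t, p.2)) ∧
      HasCompactSupport (fun p : Pt D => g (p.1 - Pi.single i t, p.2)) := by
  refine ⟨by fun_prop, ?_⟩
  have h1 := hs.comp_homeomorph (Homeomorph.subRight ((Pi.single i t, 0) : Pt D))
  have h2 : (g ∘ (Homeomorph.subRight ((Pi.single i t, 0) : Pt D))) =
      fun p : Pt D => g (p.1 - Pi.single i t, p.2) := by
    funext p
    show g (p - (Pi.single i t, 0)) = g (p.1 - Pi.single i t, p.2)
    congr 1
    refine Prod.ext rfl ?_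
    show p.2 - 0 = p.2
    rw [sub_zero]
  rw [h2] at h1
  exact h1

/-- the shifted source -/
def sr (i : Fin D) {g : Pt D → Fin D → ℝ} (hg : Continuous g) (hs : HasCompactSupport g) (t : ℝ) :
    SrcM D where
  val := fun p : Pt D => g (p.1 - (Pi.single i t : Fin D → ℝ), p.2)
  property := shc i t hg hs

theorem n2_cont (i : Fin D) {g : Pt D → Fin D → ℝ} (hg : Continuous g) (hs : HasCompactSupport g)
    (t : ℝ) : ContinuousAt (fun s : ℝ => ∫ p in Slb D, ∑ k : Fin D,
      (g (p.1 - Pi.single i s, p.2) k - g (p.1 - Pi.single i t, p.2) k) *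
        (g (p.1 - Pi.single i s, p.2) k - g (p.1 - Pi.single i t, p.2) k)) t := by
  obtain ⟨M, hM⟩ := hs.exists_bound_of_continuous hg
  have hM0 : 0 ≤ M := (norm_nonneg _).trans (hM 0)
  set K : Set (Pt D) := (fun q : Pt D × ℝ => ((q.1.1 + Pi.single i q.2, q.1.2) : Pt D)) ''
    (tsupport g ×ˢ Icc (t - 1) (t + 1)) with hK
  have hKc : IsCompact K := by
    refine (hs.isCompact.prod isCompact_Icc).image ?_
    have h1 : Continuous fun q : Pt D × ℝ => (Pi.single i q.2 : Fin D → ℝ) := by
      refine continuous_pi fun j => ?_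
      by_cases h : j = i
      · subst h
        simp only [Pi.single_eq_same]
        fun_prop
      · simp only [Pi.single_eq_of_ne h]
        fun_prop
    fun_prop
  have hmem : ∀ (s : ℝ), s ∈ Icc (t - 1) (t + 1) → ∀ p : Pt D, p ∉ K →
      g (p.1 - Pi.single i s, p.2) = 0 := by
    intro s hs' p hp
    by_contra hne
    apply hp
    have hsup : ((p.1 - Pi.single i s, p.2) : Pt D) ∈ tsupport g :=
      subset_tsupport _ (Function.mem_support.2 hne)
    refine ⟨((p.1 - Pi.single i s, p.2), s), ⟨hsup, hs'⟩, ?_⟩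
    refine Prod.ext ?_ rfl
    show p.1 - Pi.single i s + Pi.single i s = p.1
    rw [sub_add_cancel]
  have hbd : ∀ p k, |g p k| ≤ M := fun p k => (norm_le_pi_norm (g p) k).trans (hM p)
  refine continuousAt_of_dominated (bound := K.indicator fun _ => ∑ _k : Fin D, (2 * M) * (2 * M))
    ?_ ?_ ?_ ?_
  · refine Eventually.of_forall fun s => ?_
    refine Continuous.aestronglyMeasurable ?_
    fun_prop
  · have h1 : Icc (t - 1) (t + 1) ∈ 𝓝 t := Icc_mem_nhds (by linarith) (by linarith)
    filter_upwards [h1] with s hs'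
    refine Eventually.of_forall fun p => ?_
    by_cases hp : p ∈ K
    · rw [indicator_of_mem hp, Real.norm_eq_abs]
      refine (Finset.abs_sum_le_sum_abs _ _).trans (Finset.sum_le_sum fun k _ => ?_)
      have h2 : |g (p.1 - Pi.single i s, p.2) k - g (p.1 - Pi.single i t, p.2) k| ≤ 2 * M := by
        refine (abs_sub _ _).trans ?_
        have := hbd (p.1 - Pi.single i s, p.2) k
        have := hbd (p.1 - Pi.single i t, p.2) k
        linarith
      rw [abs_mul]
      exact mul_le_mul h2 h2 (abs_nonneg _) (by linarith)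
    · rw [indicator_of_notMem hp, hmem s hs' p hp, hmem t ⟨by linarith, by linarith⟩ p hp]
      simp
  · have h1 : IntegrableOn (fun _ : Pt D => ∑ _k : Fin D, (2 * M) * (2 * M)) K :=
      ContinuousOn.integrableOn_compact hKc continuousOn_const
    exact ((integrable_indicator_iff hKc.measurableSet).2 h1).integrableOn
  · refine Eventually.of_forall fun p => ?_
    have h1 : Continuous fun s : ℝ => (Pi.single i s : Fin D → ℝ) := by
      refine continuous_pi fun j => ?_
      by_cases h : j = i
      · subst h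
        simp only [Pi.single_eq_same]
        fun_prop
      · simp only [Pi.single_eq_of_ne h]
        fun_prop
    refine Continuous.continuousAt ?_
    fun_prop

theorem sol_cont (i : Fin D) {g : Pt D → Fin D → ℝ} (hg : Continuous g)
    (hs : HasCompactSupport g) : Continuous fun t : ℝ => sol (sr i hg hs t) := by
  rw [continuous_iff_continuousAt]
  intro t
  have h1 := n2_cont i hg hs t
  have h2 : Tendsto (fun s : ℝ => Real.sqrt (N2 (sr i hg hs s - sr i hg hs t).1)) (𝓝 t) (𝓝 0) := by
    have h3 : Tendsto (fun s : ℝ => N2 (sr i hg hs s - sr i hg hs t).1) (𝓝 t) (𝓝 0) := by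
      have h4 := h1.tendsto
      simp only [sub_self, mul_zero, Finset.sum_const_zero, integral_zero] at h4
      exact h4
    have h5 := (Real.continuous_sqrt.tendsto 0).comp h3
    rw [Real.sqrt_zero] at h5
    exact h5
  show Tendsto (fun t : ℝ => sol (sr i hg hs t)) (𝓝 t) (𝓝 (sol (sr i hg hs t)))
  rw [tendsto_iff_norm_sub_tendsto_zero]
  refine squeeze_zero (fun _ => norm_nonneg _) (fun s => ?_) h2
  have h6 : sol (sr i hg hs s) - sol (sr i hg hs t) = sol (sr i hg hs s - sr i hg hs t) :=
    ((solL D).map_sub (sr i hg hs s) (sr i hg hs t)).symm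
  rw [h6]
  exact sol_norm_le _

theorem con : Pool.Agent.H586.SLB.S_CON := by
  intro n D i f g hf hfs hg hgs
  have hq : ∀ j, Continuous fun t : ℝ => QC ((shift i t g - f) j) := by
    intro j
    have h1 : ∀ t : ℝ, QC ((shift i t g - f) j) =
        ‖sol (sr i (hg j) (hgs j) t) - sol (⟨f j, hf j, hfs j⟩ : SrcM D)‖ ^ 2 := by
      intro t
      have h2 : sol (sr i (hg j) (hgs j) t) - sol (⟨f j, hf j, hfs j⟩ : SrcM D) =
          sol (sr i (hg j) (hgs j) t - (⟨f j, hf j, hfs j⟩ : SrcM D)) :=
        ((solL D).map_sub _ _).symm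
      rw [h2, ← QC_sol]
      rfl
    simp only [h1]
    have h3 := sol_cont i (hg j) (hgs j)
    fun_prop
  unfold Sc
  have h4 : Continuous fun t : ℝ => ∑ j, QC ((shift i t g - f) j) :=
    continuous_finsetSum _ fun j _ => hq j
  fun_prop

end

end Pool.Agent.H385.SLB
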